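import Pool.Agent.N162.GP.Stm
import Pool.Agent.N162.CV.Stm

/-!
# Project GP, part GEP (helper774): the local computation
-/

set_option autoImplicit false
set_option linter.unusedSectionVars false

open FF Pool.Agent.W603.LV Pool.Agent.Y184.NT Pool.Agent.W602.GT
open Pool.Agent.N162.BC (GlobalForm)

namespace Pool.Agent.N774.GP

/-- a place over `Ω` as a place over `ℂ` -/
def rc {Ω E : Type} [Field Ω] [Algebra ℂ Ω] [Field E] [Algebra ℂ E] [Algebra Ω E]
    [IsScalarTower ℂ Ω E] (v : Place Ω E) : Place ℂ E where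
  ord := v.ord
  ord_zero := v.ord_zero
  ord_mul := v.ord_mul
  ord_add := v.ord_add
  ord_const := by
    intro c hc
    rw [IsScalarTower.algebraMap_apply ℂ Ω E]
    exact v.ord_const (by simpa using hc)
  surj := v.surj

theorem rc_reg {Ω E : Type} [Field Ω] [Algebra ℂ Ω] [Field E] [Algebra ℂ E] [Algebra Ω E]
    [IsScalarTower ℂ Ω E] (v : Place Ω E) (f : E) : (rc v).Reg f ↔ Ge v 0 f := Iff.rfl

theorem rc_div {Ω E : Type} [Field Ω] [Algebra ℂ Ω] [Field E] [Algebra ℂ E] [Algebra Ω E]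
    [IsScalarTower ℂ Ω E] (v : Place Ω E) (t : ℕ) (ht : Algebra.trdeg ℂ Ω = t) :
    Divisorial (t + 1) (rc v) := by
  obtain ⟨ι, y, hy⟩ := exists_isTranscendenceBasis' ℂ Ω
  have h1 : Cardinal.mk ι = t := by
    rw [← ht]
    exact hy.cardinalMk_eq_trdeg
  obtain ⟨f⟩ : Nonempty (Fin t ≃ ι) := by
    rw [← Cardinal.eq, h1]
    simp
  refine ⟨fun j => algebraMap Ω E (y (f j)), fun F hF => ?_⟩
  have h2 : MvPolynomial.aeval (fun j : Fin t => algebraMap Ω E (y (f j))) F =
      algebraMap Ω E (MvPolynomial.aeval (y ∘ f) F) := by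
    rw [← MvPolynomial.aeval_algebraMap_apply]
    rfl
  have h3 : MvPolynomial.aeval (y ∘ f) F ≠ 0 := by
    have h4 : AlgebraicIndependent ℂ (y ∘ f) := hy.1.comp f f.injective
    intro h5
    exact hF ((injective_iff_map_eq_zero _).1 h4 F h5)
  show MvPolynomial.aeval (fun j : Fin t => algebraMap Ω E (y (f j))) F ≠ 0 ∧
    v.ord (MvPolynomial.aeval (fun j : Fin t => algebraMap Ω E (y (f j))) F) = 0
  rw [h2]
  exact ⟨fun h => h3 ((map_eq_zero _).1 h), v.ord_const h3⟩

section der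

variable {Ω E : Type} [Field Ω] [Algebra ℂ Ω] [Field E] [Algebra ℂ E] [Algebra Ω E]
  [IsScalarTower ℂ Ω E]

/-- a derivation which kills the constants -/
def lin (δ : Derivation ℂ E E) (h : ∀ a : Ω, δ (algebraMap Ω E a) = 0) : Derivation Ω E E where
  toFun := δ
  map_add' := map_add δ
  map_smul' := by
    intro a f
    rw [Algebra.smul_def, Derivation.leibniz, h, smul_zero, add_zero, RingHom.id_apply,
      smul_eq_mul, ← Algebra.smul_def]
  map_one_eq_zero' := δ.map_one_eq_zero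
  leibniz' := δ.leibniz

theorem reg_log (hb : Pool.Agent.N162.CV.StDERb) [IsAlgClosed Ω] [IsFF Ω E] (v : Place Ω E) {τ : E}
    (hτ : 0 < v.ord τ) (δ : Derivation ℂ E E) (h : ∀ a : Ω, δ (algebraMap Ω E a) = 0)
    (h1 : δ τ = 1) (g : E) (hg : Ge v 0 g) : Ge v 1 (τ * δ g) := by
  have : CharZero Ω := charZero_of_injective_algebraMap (algebraMap ℂ Ω).injective
  have : CharZero E := charZero_of_injective_algebraMap (algebraMap ℂ E).injective
  obtain ⟨b, hb'⟩ := exists_const v hg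
  have e1 : δ g = δ (g - algebraMap Ω E b) := by rw [map_sub, h, sub_zero]
  rw [e1]
  obtain ⟨g', hg'⟩ : ∃ g', g' = g - algebraMap Ω E b := ⟨_, rfl⟩
  rw [← hg'] at hb' ⊢
  by_cases h0 : g' = 0
  · rw [h0, map_zero, mul_zero]
    exact Ge.zero
  · have h2 := hb Ω E (lin δ h) τ v hτ h1 g' h0
    have h3 : Ge v 0 ((v.ord τ : E) * (τ * δ g' / g')) := by
      have h4 := (h2.mono (by norm_num : (0 : ℤ) ≤ 1)).add (Ge.intCast (P := v) (v.ord g'))
      rw [sub_add_cancel] at h4
      exact h4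
    have h5 : (v.ord τ : E) ≠ 0 := by
      rw [Int.cast_ne_zero]
      omega
    have h6 : v.ord (v.ord τ : E) = 0 := by
      have h7 : (v.ord τ : E) = algebraMap Ω E ((v.ord τ : ℤ) : Ω) := (map_intCast _ _).symm
      rw [h7]
      refine v.ord_const ?_
      rw [Int.cast_ne_zero]
      omega
    have h8 : Ge v 0 (τ * δ g' / g') := Ge.of_mul' (m := 0) h5 h6 (by simpa using h3)
    have h9 : Ge v 1 g' := hb'
    have h10 := h9.mul h8
    rw [mul_div_cancel₀ _ h0, add_zero] at h10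
    exact h10

end der

/-- GP/GEP -/
theorem gep_ (ha : Pool.Agent.N162.CV.StDERa) (hb : Pool.Agent.N162.CV.StDERb)
    (hp : Pool.Agent.Y184.NT.StPull) : Pool.Agent.N162.GP.StGEP := by
  classical
  intro n t K Ω E _ _ _ _ _ _ _ _ _ _ _ hK hΩ z e hz he η hη φ v τ hτ i₀ δ h1 h2 h3
  obtain ⟨π, hπ0, hπ⟩ := v.surj
  let iA : Algebra K E := φ.toRingHom.toAlgebra
  have iT : IsScalarTower ℂ K E := IsScalarTower.of_algebraMap_eq fun c => (φ.commutes c).symm
  have htr : Algebra.trdeg ℂ E = ((t + 1 : ℕ) : Cardinal) := by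
    have h4 : Algebra.trdeg ℂ Ω + Algebra.trdeg Ω E = Algebra.trdeg ℂ E := _root_.trdeg_add_eq ℂ Ω
    rw [hΩ, IsFF.trdeg (k := Ω) (K := E)] at h4
    rw [← h4]
    push_cast
    rfl
  let D : Fin n → Derivation ℂ E E := fun i => if i = i₀ then (π⁻¹ * τ) • δ i₀ else δ i
  have hD : ∀ i, DerReg (rc v) (D i) := by
    intro i f hf
    rw [rc_reg] at hf ⊢
    by_cases hi : i = i₀
    · simp only [D, if_pos hi]
      rw [Derivation.smul_apply, smul_eq_mul, mul_assoc]
      have h4 := reg_log hb v hτ (δ i₀) h1 h2 f hf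
      refine Ge.of_mul' (h := π) (m := 1) hπ0 hπ ?_
      rw [mul_inv_cancel_left₀ hπ0]
      simpa using h4
    · simp only [D, if_neg hi]
      obtain ⟨h4, D', h5⟩ := h3 i hi
      exact ha Ω E D' (δ i) h5 τ v hτ h4 0 f hf
  have h6 := hp K E n (t + 1) hK htr z hz e he η hη.1 hη.2 (rc v) (rc_div v t hΩ) D hD
  rw [rc_reg] at h6
  have h7 : (Matrix.of fun i j => D i (algebraMap K E (z j))).det =
      π⁻¹ * τ * (Matrix.of fun i j => δ i (φ (z j))).det := by
    have h8 : (Matrix.of fun i j => D i (algebraMap K E (z j))) =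
        (Matrix.of fun i j => δ i (φ (z j))).updateRow i₀
          ((π⁻¹ * τ) • (Matrix.of fun i j => δ i (φ (z j))) i₀) := by
      ext i j
      rw [Matrix.updateRow_apply, Matrix.of_apply]
      by_cases hi : i = i₀
      · simp only [D, if_pos hi]
        rfl
      · simp only [D, if_neg hi]
        rfl
    rw [h8, Matrix.det_updateRow_smul, Matrix.updateRow_eq_self]
  rw [h7] at h6
  have h8 : algebraMap K E (η e) = φ (η e) := rfl
  rw [h8] at h6
  have h9 : Ge v 1 π := Or.inr hπ.ge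
  have h10 := h9.mul h6
  have h11 : π * (π⁻¹ * τ * (Matrix.of fun i j => δ i (φ (z j))).det * φ (η e)) =
      τ * ((Matrix.of fun i j => δ i (φ (z j))).det * φ (η e)) := by
    field_simp
  rw [h11, add_zero] at h10
  exact h10

end Pool.Agent.N774.GP
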